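import Pool.Agent.K.MP_719a5e_nt.C4

set_option autoImplicit false

namespace Pool.Agent.Results.MP_719a5e_nt.FourRows

theorem result :
    ∃ t : ℕ, ∀ A B : Finset ℕ, (∀ a ∈ A, 0 < a) → 4 ≤ A.card →
      (∀ a ∈ A, ∀ b ∈ B, IsSquare (a * b + 1)) → B.card ≤ t := by
  obtain ⟨t, ht⟩ := Pool.Agent.P.MP_719a5e_nt.four
  exact ⟨t, fun A B h1 h2 h3 => ht A B h1 h3 h2⟩

end Pool.Agent.Results.MP_719a5e_nt.FourRows
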