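import Pool.Agent.K.MP_719a5e_nt.C4

set_option autoImplicit false

namespace Pool.Agent.Results.MP_719a5e_nt.LargeColumns

theorem result (N : ℕ) :
    ∃ t : ℕ, ∀ (a₁ a₂ a₃ : ℕ) (B : Finset ℕ), 0 < a₁ → a₁ < a₂ → a₂ < a₃ →
      (∀ b ∈ B, a₃ ≤ b ^ N ∧ IsSquare (a₁ * b + 1) ∧ IsSquare (a₂ * b + 1) ∧
        IsSquare (a₃ * b + 1)) → B.card ≤ t :=
  Pool.Agent.P.MP_719a5e_nt.large N

end Pool.Agent.Results.MP_719a5e_nt.LargeColumns
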