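import Pool.Agent.K.MP_719a5e_nt.C1

set_option autoImplicit false

namespace Pool.Agent.Results.MP_719a5e_nt.TenByTen

theorem result :
    ∀ A B : Finset ℕ, (∀ a ∈ A, 0 < a) → (∀ b ∈ B, 0 < b) →
      (∀ a ∈ A, ∀ b ∈ B, IsSquare (a * b + 1)) → min A.card B.card ≤ 9 :=
  Pool.Agent.P.MP_719a5e_nt.main.2.2

end Pool.Agent.Results.MP_719a5e_nt.TenByTen
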