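import Pool.Agent.K.MP_719a5e_nt.C1

set_option autoImplicit false

namespace Pool.Agent.Results.MP_719a5e_nt.ThreeGap

theorem result :
    ∀ a b : Fin 3 → ℕ, StrictMono a → StrictMono b → 0 < a 0 → 0 < b 0 →
      (∀ i j, IsSquare (a i * b j + 1)) →
      256 * ((a 0 : ℤ) * a 1 * a 2 * (b 0 * b 1 * b 2)) ^ 3 <
        (((a 1 : ℤ) - a 0) * (a 2 - a 0) * (a 2 - a 1) *
          (((b 1 : ℤ) - b 0) * (b 2 - b 0) * (b 2 - b 1))) ^ 2 :=
  Pool.Agent.P.MP_719a5e_nt.main.1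

end Pool.Agent.Results.MP_719a5e_nt.ThreeGap
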